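import Pool.Agent.H.MP_2725b4_gt.Final

/-!
# MP_2725b4_gt: a geodesic whose first conjugate point has order exactly one

On the torus `ℝ²/((1/16)ℤ × 2πℤ)` with the metric `dx²/(2 + cos y) + (2 + cos y) dy²` the steady
Euler flow `u = (2 + cos y)(1 - cos y / 4) ∂ₓ` generates an `L²` geodesic of the group of
volume-preserving diffeomorphisms whose first conjugate point occurs at time `8π`; the kernel of
the differential of the exponential map there is spanned by `∂_y`.
-/

set_option autoImplicit false

open Pool.Agent.H.MP_2725b4_gt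

namespace Pool.Agent.Results.MP_2725b4_gt.FirstConjugateOrderOne

/-- **There are a smooth Riemannian metric `M` on a two-dimensional torus `ℝ²/(aℤ × bℤ)`, a
(smooth) `L²` geodesic `η` of its group of volume-preserving diffeomorphisms, starting at the
identity, and a time `T > 0` such that, in the group of class `Hˢ` for every real `s > 2`, the
kernel of `d exp_e (t u₀)` is zero for `0 < t < T`, and the kernel of `d exp_e (T u₀)` is a line
`ℝ w`, `w ≠ 0`:** the first conjugate point along `η` occurs at time `T` and has order one. -/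
theorem result : ∃ (a b : ℝ) (M : TorusMetric a b) (u η : ℝ → (Fin 2 → ℝ) → Fin 2 → ℝ) (T : ℝ),
    0 < a ∧ 0 < b ∧ 0 < T ∧ IsGeodesic M u η ∧
      ∀ s : ℝ, 2 < s →
        (∀ t, 0 < t → t < T → dexpKer M u η s t = {0}) ∧
          ∃ w, w ≠ 0 ∧ dexpKer M u η s T = {v | ∃ c : ℝ, v = c • w} :=
  ⟨1 / 16, 2 * Real.pi, ME, uE, ηE, 8 * Real.pi, by norm_num, by positivity, by positivity,
    isGeodesic_E, fun s _ => ⟨fun _ ht ht8 => kernel_before ht ht8, wE, wE_ne_zero, kernel_at s⟩⟩

end Pool.Agent.Results.MP_2725b4_gt.FirstConjugateOrderOne
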